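import Pool.Agent.Q279.Col.Bin

/-!
# Congruences for `2^m`-coloured binary partitions (MP_06821b_nt, Q1)

`Q279.Col.Bin.b m n` (file `Pool.Agent.Q279.Col.BinDefs`) is the coefficient `b_m(n)` of `x ^ n` in
the power series `∏_{i ≥ 0} (1 - x^{2^i})^{-m}` over `ℤ`: the infinite product converges
coefficientwise (`Q279.Col.multipliable_pow`), and the inverse is characterised by
`Q279.Col.Bin.denB_mul`.
-/

set_option autoImplicit false

namespace Pool.Agent.Results.MP_06821b_nt.PowTwoColours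

open Q279.Col.Bin

/-- For every `m ≥ 1`, `n ≥ 0` and `k ≥ m + 2`, `b_{2^m}(2^{k+1} n) ≡ b_{2^m}(2^{k-1} n) mod 2^k`. -/
theorem result (m n k : ℕ) (hm : 1 ≤ m) (hk : m + 2 ≤ k) :
    b (2 ^ m) (2 ^ (k + 1) * n) ≡ b (2 ^ m) (2 ^ (k - 1) * n) [ZMOD 2 ^ k] :=
  (Int.modEq_iff_dvd.2 (congr_main m k n hm hk)).symm

end Pool.Agent.Results.MP_06821b_nt.PowTwoColours
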